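import Mathlib

set_option autoImplicit false

namespace Pool.Agent.Results.MP_c20855_lc.NotEpsilon

open Set Ordinal

/-- The real number whose binary digits form the `i`-th shift of `b`. -/
noncomputable def val (b : ℕ → Fin 2) (i : ℕ) : ℝ :=
  ∑' n : ℕ, ((b (n + i) : ℕ) : ℝ) / 2 ^ (n + 1)

theorem term_le (b : ℕ → Fin 2) (i n : ℕ) :
    ((b (n + i) : ℕ) : ℝ) / 2 ^ (n + 1) ≤ 1 / 2 / 2 ^ n := by
  have h : ((b (n + i) : ℕ) : ℝ) ≤ 1 := by
    have := (b (n + i)).2
    exact_mod_cast Nat.lt_succ_iff.1 this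
  rw [div_div, ← pow_succ']
  exact div_le_div_of_nonneg_right h (by positivity)

theorem summ (b : ℕ → Fin 2) (i : ℕ) :
    Summable (fun n : ℕ => ((b (n + i) : ℕ) : ℝ) / 2 ^ (n + 1)) :=
  Summable.of_nonneg_of_le (fun n => by positivity) (term_le b i) (summable_geometric_two' 1)

theorem val_nonneg (b : ℕ → Fin 2) (i : ℕ) : 0 ≤ val b i := tsum_nonneg (fun n => by positivity)

theorem val_le (b : ℕ → Fin 2) (i : ℕ) : val b i ≤ 1 := by
  have := (summ b i).tsum_le_tsum (term_le b i) (summable_geometric_two' 1)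
  rwa [tsum_geometric_two'] at this

theorem val_succ (b : ℕ → Fin 2) (i : ℕ) : val b (i + 1) = 2 * val b i - (b i : ℕ) := by
  have h1 := (summ b i).tsum_eq_zero_add
  have h2 : ∑' n : ℕ, ((b (n + 1 + i) : ℕ) : ℝ) / 2 ^ (n + 1 + 1) = val b (i + 1) / 2 := by
    unfold val
    rw [← tsum_div_const]
    refine tsum_congr (fun n => ?_)
    rw [show n + 1 + i = n + (i + 1) by omega, div_div, ← pow_succ]
  rw [h2] at h1
  unfold val at h1 ⊢
  rw [h1]
  simp only [zero_add, pow_one]
  ring

theorem digit (b : ℕ → Fin 2) (i : ℕ) : ((b i : ℕ) : ℝ) = 0 ∨ ((b i : ℕ) : ℝ) = 1 := by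
  generalize b i = x
  fin_cases x <;> simp

theorem finite_of_const (b : ℕ → Fin 2) (i : ℕ) (c : ℝ) (h : ∀ j, val b (i + j) = c) :
    (range (val b)).Finite := by
  refine (((finite_Iio i).image (val b)).insert c).subset ?_
  rintro _ ⟨j, rfl⟩
  by_cases hj : j < i
  · exact Or.inr ⟨j, hj, rfl⟩
  · left
    rw [← h (j - i)]
    congr 1
    omega

theorem result (b : ℕ → Fin 2) [WellFoundedLT (range (val b))] :
    (typeLT (range (val b))) ≠ epsilon 0 := by
  classical
  intro h
  have hinf : ¬ (range (val b)).Finite := by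
    intro h1
    have h2 : (typeLT (range (val b))).card < Cardinal.aleph0 := by
      rw [card_type]
      exact Cardinal.lt_aleph0_iff_set_finite.2 h1
    rw [h] at h2
    exact absurd (aleph0_le_card.2 (omega0_lt_epsilon 0).le) (not_le.2 h2)
  have h1 : ∀ i, val b i < 1 := by
    intro i
    refine lt_of_le_of_ne (val_le b i) (fun h2 => hinf (finite_of_const b i 1 (fun j => ?_)))
    induction j with
    | zero => exact h2
    | succ j ih =>
      have h3 := val_succ b (i + j)
      have h4 := val_le b (i + j + 1)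
      rw [← add_assoc]
      rcases digit b (i + j) with h5 | h5 <;> linarith
  have h2 : ∃ i, 1 / 2 < val b i := by
    by_contra h3
    push Not at h3
    have h4 : ∀ i, val b i = 0 → ∀ j, val b (i + j) = 0 := by
      intro i hi j
      induction j with
      | zero => exact hi
      | succ j ih =>
        have h5 := val_succ b (i + j)
        have h6 := val_nonneg b (i + j + 1)
        rw [← add_assoc]
        rcases digit b (i + j) with h7 | h7 <;> linarith
    by_cases h5 : ∃ i, ((b i : ℕ) : ℝ) = 1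
    · obtain ⟨i, hi⟩ := h5
      refine hinf (finite_of_const b (i + 1) 0 (h4 _ ?_))
      have h6 := val_succ b i
      have h7 := val_nonneg b (i + 1)
      have h8 := h3 i
      linarith
    · refine hinf (finite_of_const b 0 0 (h4 _ ?_))
      unfold val
      have h6 : ∀ n, ((b n : ℕ) : ℝ) = 0 := fun n => (digit b n).resolve_right (fun h => h5 ⟨n, h⟩)
      simp [h6]
  obtain ⟨i0, hi0⟩ := h2
  let y : range (val b) := ⟨val b i0, i0, rfl⟩
  have h3 : ∀ x : range (val b), ∃ n : ℕ, 1 - 2 ^ n * (1 - (x : ℝ)) ≤ 1 / 2 := by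
    rintro ⟨_, i, rfl⟩
    have h4 : 0 < 1 - val b i := sub_pos.2 (h1 i)
    obtain ⟨n, hn⟩ := pow_unbounded_of_one_lt (1 / (1 - val b i)) (show (1 : ℝ) < 2 by norm_num)
    rw [div_lt_iff₀ h4] at hn
    exact ⟨n, by simp only; linarith⟩
  have h4 : ∀ (x : range (val b)) (n : ℕ), n ≤ Nat.find (h3 x) →
      1 - 2 ^ n * (1 - (x : ℝ)) ∈ range (val b) := by
    intro x n
    induction n with
    | zero => intro _; simp
    | succ n ih =>
      intro hn
      obtain ⟨i, hi⟩ := ih (by omega)
      have h5 := not_le.1 (Nat.find_min (h3 x) (show n < Nat.find (h3 x) by omega))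
      have h6 := val_succ b i
      have h7 := val_le b (i + 1)
      refine ⟨i + 1, ?_⟩
      rw [pow_succ]
      rcases digit b i with h8 | h8 <;> linarith
  let φ : range (val b) → ℕ × Iio y := fun x => (Nat.find (h3 x),
    ⟨⟨_, h4 x _ le_rfl⟩, lt_of_le_of_lt (Nat.find_spec (h3 x)) hi0⟩)
  have h5 : ∀ x x', x < x' → Prod.Lex (· < ·) (· < ·) (φ x) (φ x') := by
    intro x x' hxx
    have h6 : ∀ n : ℕ, 1 - 2 ^ n * (1 - (x : ℝ)) < 1 - 2 ^ n * (1 - (x' : ℝ)) := by
      intro n
      have h7 : (x : ℝ) < x' := hxx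
      have h8 : (0 : ℝ) < 2 ^ n := by positivity
      nlinarith
    have h7 : Nat.find (h3 x) ≤ Nat.find (h3 x') :=
      Nat.find_min' _ ((h6 _).le.trans (Nat.find_spec (h3 x')))
    rw [Prod.lex_def]
    rcases lt_or_eq_of_le h7 with h8 | h8
    · exact Or.inl h8
    · refine Or.inr ⟨h8, ?_⟩
      change 1 - 2 ^ Nat.find (h3 x) * (1 - (x : ℝ)) < 1 - 2 ^ Nat.find (h3 x') * (1 - (x' : ℝ))
      rw [← h8]
      exact h6 _
  have h6 : (typeLT (range (val b))) ≤ (typeLT (Iio y)) * ω := by
    rw [← type_nat_lt, ← type_prod_lex, type_le_iff']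
    exact ⟨RelEmbedding.ofMonotone φ h5⟩
  have h7 : (typeLT (Iio y)) < epsilon 0 := by
    rw [← h]
    exact typein_lt_type (· < ·) y
  have h8 : IsPrincipal (· * ·) (epsilon 0) := by
    have := isPrincipal_mul_omega0_opow_opow (epsilon 0)
    rwa [omega0_opow_epsilon, omega0_opow_epsilon] at this
  rw [h] at h6
  exact absurd (h8 h7 (omega0_lt_epsilon 0)) (not_lt.2 h6)

end Pool.Agent.Results.MP_c20855_lc.NotEpsilon
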